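import Pool.Agent.W2helper86.ET.Val

set_option autoImplicit false

/-!
# Project ETU, piece RED: numerical facts
-/

namespace Pool.Agent.W2helper86.ET

open Pool.Agent.W2helper22.SM Pool.Agent.W2helper22.ET Pool.Agent.W2helper86.SM

/-- the numerical facts; `L = nL k n + 1` -/
structure Num (P g : Algo) (p q n k W' : ℕ) : Prop where
  n1 : 1 ≤ n
  kk : k = p * Nat.log 2 n / q
  nW : 1000 * n + 3000 < W'
  nW4 : 100 * ((n * n * n + 1) * (n + 1)) < W'
  n300 : 4 * n ^ 300 ≤ W'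
  nLW : (n + 1) * (nL k n + 2) < W'
  LW : nL k n + 3000 < W'
  bn : 2 ^ bits n ≤ 2 * n
  k3 : 2 ^ k ≤ n * n * n
  U1 : 1 ≤ nU k n
  UU : nU k n ≤ 8 * (n * n * n + 1)
  UW : nU k n < W'
  hG : nG k n ≤ nL k n
  G100 : 101 * nG k n ≤ nL k n
  KL : cK n ≤ nL k n
  K1 : 1 ≤ cK n
  pW : p < W'
  qW : q < W'
  plW : p * Nat.log 2 n < W'
  W2 : 2 * P.W n ≤ W'
  WL : P.W n * (nL k n + 1) + (nL k n + 1) ≤ W'
  W2g : 2 * g.W n ≤ W'
  WLg : g.W n * (nL k n + 1) + (nL k n + 1) ≤ W'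
  mxP : P.prog.mx < W'
  mxg : g.prog.mx < W'

theorem num {P g : Algo} {p q n k W' : ℕ} (hk : k = kk p q n) (h : BigW3 P g p q n W') :
    Num P g p q n k W' := by
  obtain ⟨hn, hq, hpq, h300, hbig⟩ := h
  rw [← hk] at hbig
  obtain ⟨A, hA⟩ : ∃ A, A = P.W n + g.W n + P.prog.mx + g.prog.mx + p + q + 1000 := ⟨_, rfl⟩
  rw [← hA] at hbig
  have hX : ∀ x y z, x ≤ A → y ≤ (n + 1) ^ 8 → z ≤ nL k n + 2 → 1000 * (x * (y * z)) ≤ W' := by
    intro x y z hx hy hz
    have h1 : x * (y * z) ≤ A * ((n + 1) ^ 8 * (nL k n + 2)) :=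
      Nat.mul_le_mul hx (Nat.mul_le_mul hy hz)
    have h2 : 1000 * A * (n + 1) ^ 8 * (nL k n + 2) = 1000 * (A * ((n + 1) ^ 8 * (nL k n + 2))) := by
      ring
    omega
  have hlog : Nat.log 2 n ≤ n := Nat.log_le_self 2 n
  have hpow : 2 ^ Nat.log 2 n ≤ n := Nat.pow_log_le_self 2 (by omega)
  have hn8 : n + 1 ≤ (n + 1) ^ 8 := Nat.le_self_pow (by norm_num) _
  have h18 : 1 ≤ (n + 1) ^ 8 := Nat.one_le_pow _ _ (by omega)
  have h4 : (n * n * n + 1) * (n + 1) ≤ (n + 1) ^ 8 := by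
    calc (n * n * n + 1) * (n + 1) ≤ (n + 1) ^ 3 * (n + 1) := by
          refine Nat.mul_le_mul_right _ ?_
          have : (n + 1) ^ 3 = n * n * n + 3 * (n * n) + 3 * n + 1 := by ring
          omega
      _ = (n + 1) ^ 4 := by ring
      _ ≤ (n + 1) ^ 8 := Nat.pow_le_pow_right (by omega) (by norm_num)
  clear hbig
  generalize (n + 1) ^ 8 = E at hX hn8 h18 h4
  have hK1 : 1 ≤ cK n := by unfold cK; omega
  have hK100 : 101 ≤ cK n := by unfold cK bits; omega
  have hU1 : 1 ≤ nU k n := Nat.mul_pos (by norm_num) (Nat.succ_pos _)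
  have hG1 : 1 ≤ nG k n := by
    unfold nG
    have : 1 ≤ bits n ^ 2 := Nat.one_le_pow _ _ (by unfold bits; omega)
    have := Nat.mul_le_mul this hU1
    omega
  have a1 : 1000 * A ≤ W' := by
    have h := hX A 1 1 le_rfl h18 (by omega)
    exact le_trans (le_of_eq (by ring)) h
  have a2 : 1000000 * (n + 1) ≤ W' := by
    have h := hX 1000 (n + 1) 1 (by omega) hn8 (by omega)
    exact le_trans (le_of_eq (by ring)) h
  have a3 : 1000000 * (nL k n + 2) ≤ W' := by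
    have h := hX 1000 1 (nL k n + 2) (by omega) h18 le_rfl
    exact le_trans (le_of_eq (by ring)) h
  have a4 : 1000000 * ((n + 1) * (nL k n + 2)) ≤ W' := by
    have h := hX 1000 (n + 1) (nL k n + 2) (by omega) hn8 le_rfl
    exact le_trans (le_of_eq (by ring)) h
  have a5 : 1000000 * ((n * n * n + 1) * (n + 1)) ≤ W' := by
    have h := hX 1000 _ 1 (by omega) h4 (by omega)
    exact le_trans (le_of_eq (by ring)) h
  have a6 : 1000 * (p * (n + 1)) ≤ W' := by
    have h := hX p (n + 1) 1 (by omega) hn8 (by omega)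
    exact le_trans (le_of_eq (by ring)) h
  have a7 : p * Nat.log 2 n ≤ p * (n + 1) := Nat.mul_le_mul_left _ (by omega)
  have a7' : 1 ≤ p * (n + 1) ∨ p = 0 := by
    rcases Nat.eq_zero_or_pos p with h | h
    · exact Or.inr h
    · exact Or.inl (Nat.mul_pos h (by omega))
  have a8 : ∀ x, x + 1 ≤ A → 1000 * (x * (nL k n + 1) + (nL k n + 1)) ≤ W' := by
    intro x hx
    have h := hX (x + 1) 1 (nL k n + 1) hx h18 (by omega)
    exact le_trans (le_of_eq (by ring)) h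
  have b1 := a8 (P.W n) (by omega)
  have b2 := a8 (g.W n) (by omega)
  have hkl : k ≤ 3 * Nat.log 2 n := by
    rw [hk]
    unfold kk
    apply Nat.div_le_of_le_mul
    calc p * Nat.log 2 n ≤ (3 * q) * Nat.log 2 n := Nat.mul_le_mul_right _ hpq
      _ = q * (3 * Nat.log 2 n) := by ring
  have hk3 : 2 ^ k ≤ n * n * n := by
    calc 2 ^ k ≤ 2 ^ (3 * Nat.log 2 n) := Nat.pow_le_pow_right (by norm_num) hkl
      _ = 2 ^ Nat.log 2 n * 2 ^ Nat.log 2 n * 2 ^ Nat.log 2 n := by ring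
      _ ≤ n * n * n := Nat.mul_le_mul (Nat.mul_le_mul hpow hpow) hpow
  have hUU : nU k n ≤ 8 * (n * n * n + 1) := by
    unfold nU
    have h5 : n ^ 3 / 2 ^ k ≤ n ^ 3 := Nat.div_le_self _ _
    have h6 : n ^ 3 = n * n * n := by ring
    omega
  have h7 : n * n * n + 1 ≤ (n * n * n + 1) * (n + 1) := Nat.le_mul_of_pos_right _ (by omega)
  have hbn : 2 ^ bits n ≤ 2 * n := by
    unfold bits
    rw [pow_succ]
    omega
  have hGL : nG k n ≤ nL k n := by
    unfold nL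
    exact Nat.le_mul_of_pos_right _ hK1
  have hG100 : 101 * nG k n ≤ nL k n := by
    unfold nL
    rw [Nat.mul_comm]
    exact Nat.mul_le_mul_left _ hK100
  have hKL : cK n ≤ nL k n := by
    unfold nL
    exact Nat.le_mul_of_pos_left _ hG1
  have c1 : 1 ≤ (n + 1) * (nL k n + 2) := Nat.mul_pos (by omega) (by omega)
  have c2 : 1 ≤ (n * n * n + 1) * (n + 1) := Nat.mul_pos (by omega) (by omega)
  refine ⟨hn, hk, by omega, by omega, h300, by omega, by omega, hbn, hk3, hU1, hUU, by omega,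
    hGL, hG100, hKL, hK1, by omega, by omega, by omega, by omega, by omega, by omega, by omega,
    by omega, by omega⟩

section Group

variable {P g : Algo} {p q n k W' : ℕ} (N : Num P g p q n k W')

include N

/-- the numerical facts for the group `h` -/
theorem grp {h : ℕ} (hh : h < nG k n) :
    s1 k n h < bits n ∧ s2 k n h < bits n ∧ s3 k n h ≤ k ∧ i1 k n h < nU k n ∧
      i2 k n h < b2 k n h ∧ i3 k n h < b3 k n h := by
  have hU := N.U1
  have hb : 0 < bits n := by unfold bits; omega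
  have h1 : h / 4 < bits n ^ 2 * nU k n := by
    rw [Nat.div_lt_iff_lt_mul (by norm_num)]
    exact hh
  have h2 : h / 4 / nU k n < bits n * bits n := by
    rw [Nat.div_lt_iff_lt_mul (by omega)]
    rw [← pow_two]
    exact h1
  have h3 : h / 4 % nU k n < nU k n := Nat.mod_lt _ (by omega)
  refine ⟨?_, Nat.mod_lt _ hb, ?_, ?_, Nat.mod_lt _ (Nat.succ_pos _), Nat.mod_lt _ (Nat.succ_pos _)⟩
  · unfold s1
    rw [Nat.div_lt_iff_lt_mul hb]
    exact h2
  · unfold s3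
    omega
  · unfold i1
    exact lt_of_le_of_lt ((Nat.div_le_self _ _).trans (Nat.div_le_self _ _)) h3

theorem pow_s {s : ℕ} (hs : s < bits n) : 2 ^ s ≤ n := by
  have hn := N.n1
  have hpow : 2 ^ Nat.log 2 n ≤ n := Nat.pow_log_le_self 2 (by omega)
  refine le_trans (Nat.pow_le_pow_right (by norm_num) ?_) hpow
  unfold bits at hs
  omega

theorem pow_k {s : ℕ} (hs : s ≤ k) : 2 ^ s ≤ n * n * n :=
  le_trans (Nat.pow_le_pow_right (by norm_num) hs) N.k3

theorem mul_i1 {h : ℕ} (hh : h < nG k n) :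
    i1 k n h * 2 ^ s1 k n h ≤ 8 * ((n * n * n + 1) * (n + 1)) := by
  obtain ⟨g1, g2, g3, g4, g5, g6⟩ := grp N hh
  have h1 := N.UU
  have h2 := pow_s N g1
  calc i1 k n h * 2 ^ s1 k n h ≤ (8 * (n * n * n + 1)) * (n + 1) :=
        Nat.mul_le_mul (by omega) (by omega)
    _ = 8 * ((n * n * n + 1) * (n + 1)) := by ring

theorem mul_i2 {h : ℕ} (hh : h < nG k n) : i2 k n h * 2 ^ s2 k n h ≤ n := by
  obtain ⟨g1, g2, g3, g4, g5, g6⟩ := grp N hh
  have h1 : i2 k n h ≤ n / 2 ^ s2 k n h := by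
    unfold b2 at g5
    omega
  exact (Nat.mul_le_mul_right _ h1).trans (Nat.div_mul_le_self _ _)

theorem mul_i3 {h : ℕ} (hh : h < nG k n) : i3 k n h * 2 ^ s3 k n h ≤ n := by
  obtain ⟨g1, g2, g3, g4, g5, g6⟩ := grp N hh
  have h1 : i3 k n h ≤ n / 2 ^ s3 k n h := by
    unfold b3 at g6
    omega
  exact (Nat.mul_le_mul_right _ h1).trans (Nat.div_mul_le_self _ _)

/-- the labels are words -/
theorem lab_lt {h : ℕ} (hh : h < nG k n) (ω' : ℕ → ℕ → ℕ) (x : ℕ) : lab k n ω' h x < W' := by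
  obtain ⟨g1, g2, g3, g4, g5, g6⟩ := grp N hh
  have h4 := N.nW4
  have h5 : n * n * n + 1 ≤ (n * n * n + 1) * (n + 1) := Nat.le_mul_of_pos_right _ (by omega)
  have h6 := N.nW
  have m1 := mul_i1 N hh
  have m2 := mul_i2 N hh
  have m3 := mul_i3 N hh
  have p1 := pow_s N g1
  have p2 := pow_s N g2
  have p3 := pow_k N g3
  have q1 : ω' (2 * x + 1) (2 * h + 1) % 2 ^ s1 k n h < 2 ^ s1 k n h :=
    Nat.mod_lt _ (Nat.two_pow_pos _)
  have q2 : ω' (2 * x + 1) (2 * h + 1) % 2 ^ s2 k n h < 2 ^ s2 k n h :=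
    Nat.mod_lt _ (Nat.two_pow_pos _)
  have q3 : ω' (2 * x + 1) (2 * h + 1) % 2 ^ s3 k n h < 2 ^ s3 k n h :=
    Nat.mod_lt _ (Nat.two_pow_pos _)
  unfold lab
  split_ifs
  · omega
  · omega
  · omega
  · omega

/-- the address of the entry in column `c` of the copy `idx` is a word -/
theorem addr {c idx : ℕ} (hc : c ≤ n) (hidx : idx < nL k n + 1) :
    c * (nL k n + 1) + idx < W' := by
  have h1 : c * (nL k n + 1) ≤ n * (nL k n + 1) := Nat.mul_le_mul_right _ hc
  have h2 : (n + 1) * (nL k n + 2) = n * (nL k n + 1) + n + nL k n + 2 := by ring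
  have h3 := N.nLW
  omega

end Group

theorem idx_lt {n k h j : ℕ} (hh : h < nG k n) (hj : j < cK n) : h * cK n + j < nL k n := by
  unfold nL
  have : (h + 1) * cK n ≤ nG k n * cK n := Nat.mul_le_mul_right _ hh
  have h2 : (h + 1) * cK n = h * cK n + cK n := by ring
  omega

end Pool.Agent.W2helper86.ET
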