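import Pool.Agent.W2helper86.ET.Num

set_option autoImplicit false

/-!
# Project ETU, piece RED: the input of a copy
-/

namespace Pool.Agent.W2helper86.ET

open Pool.Agent.W2helper22.SM Pool.Agent.W2helper22.ET Pool.Agent.W2helper86.SM

/-- the registers during the loops -/
def RGE (n k : ℕ) (m : Mem) : Prop :=
  m.v 0 = n ∧ m.v 2 = nL k n + 1 ∧ m.v 3 = Nat.log 2 n ∧ m.v 4 = k ∧ m.v 5 = cK n ∧
    m.v 6 = nU k n ∧ m.v 7 = nG k n

theorem RGE.of_eq {n k : ℕ} {m m' : Mem} (h : RGE n k m)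
    (hv : ∀ y, y ≤ 7 → y ≠ 1 → m'.v y = m.v y) : RGE n k m' := by
  obtain ⟨h0, h2, h3, h4, h5, h6, h7⟩ := h
  exact ⟨(hv 0 (by omega) (by omega)).trans h0, (hv 2 (by omega) (by omega)).trans h2,
    (hv 3 (by omega) (by omega)).trans h3, (hv 4 (by omega) (by omega)).trans h4,
    (hv 5 (by omega) (by omega)).trans h5, (hv 6 (by omega) (by omega)).trans h6,
    (hv 7 (by omega) (by omega)).trans h7⟩

section Enc

variable {n : ℕ} (X : Instance n) (G : SimpleGraph (Fin n)) (l : ℕ → ℕ)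

theorem enc_out (r i j : ℕ) (h : ¬ (i < n ∧ j < n)) : X.enc.a r i j = 0 := by
  unfold Instance.enc
  simp only
  rw [dif_neg h]

theorem enc_ge2 (r i j : ℕ) (hr : 2 ≤ r) : X.enc.a r i j = 0 := by
  by_cases h : i < n ∧ j < n
  · unfold Instance.enc
    simp only
    rw [dif_pos h, if_neg (by omega), if_neg (by omega)]
  · exact enc_out X r i j h

theorem enc_a0_pos {i j : ℕ} (h : i < n ∧ j < n) (hX : X.E.Adj ⟨i, h.1⟩ ⟨j, h.2⟩) :
    X.enc.a 0 i j = 1 := by
  unfold Instance.enc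
  simp only
  rw [dif_pos h, if_pos trivial, if_pos hX]

theorem enc_a0_neg {i j : ℕ} (h : i < n ∧ j < n) (hX : ¬ X.E.Adj ⟨i, h.1⟩ ⟨j, h.2⟩) :
    X.enc.a 0 i j = 0 := by
  unfold Instance.enc
  simp only
  rw [dif_pos h, if_pos trivial, if_neg hX]

theorem enc_a1 {i j : ℕ} (h : i < n ∧ j < n) :
    X.enc.a 1 i j = (X.w ⟨i, h.1⟩ ⟨j, h.2⟩ + (n : ℤ) ^ 300).toNat := by
  unfold Instance.enc
  simp only
  rw [dif_pos h, if_neg (by omega), if_pos trivial]

theorem enc_a0_le (i j : ℕ) : X.enc.a 0 i j ≤ 1 := by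
  by_cases h : i < n ∧ j < n
  · by_cases hX : X.E.Adj ⟨i, h.1⟩ ⟨j, h.2⟩
    · rw [enc_a0_pos X h hX]
    · rw [enc_a0_neg X h hX]
      omega
  · rw [enc_out X 0 i j h]
    omega

theorem enc_a1_le (i j : ℕ) : X.enc.a 1 i j ≤ 2 * n ^ 300 := by
  by_cases h : i < n ∧ j < n
  · rw [enc_a1 X h]
    have h1 := X.bound ⟨i, h.1⟩ ⟨j, h.2⟩
    rw [abs_le] at h1
    have h2 : ((n ^ 300 : ℕ) : ℤ) = (n : ℤ) ^ 300 := by push_cast; rfl
    rw [← h2] at h1 ⊢
    omega
  · rw [enc_out X 1 i j h]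
    omega

theorem pull_a1 {i j : ℕ} (hi : i < n) (hj : j < n) :
    (pull X G l).enc.a 1 i j = X.enc.a 1 (l i) (l j) := by
  rw [enc_a1 _ ⟨hi, hj⟩]
  unfold pull
  simp only
  by_cases h : l i < n ∧ l j < n
  · rw [dif_pos h, enc_a1 X h]
  · rw [dif_neg h, enc_out X 1 _ _ h]
    simp

theorem pull_a0 {i j : ℕ} (hi : i < n) (hj : j < n) {e : ℕ}
    (he : e ≠ 0 ↔ G.Adj ⟨i, hi⟩ ⟨j, hj⟩) :
    (pull X G l).enc.a 0 i j = (1 - (1 - e)) * X.enc.a 0 (l i) (l j) := by
  by_cases hG : G.Adj ⟨i, hi⟩ ⟨j, hj⟩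
  · have h1 : 1 - (1 - e) = 1 := by
      have := he.2 hG
      omega
    rw [h1, one_mul]
    by_cases h : l i < n ∧ l j < n
    · by_cases hX : X.E.Adj ⟨l i, h.1⟩ ⟨l j, h.2⟩
      · rw [enc_a0_pos X h hX, enc_a0_pos (pull X G l) ⟨hi, hj⟩ ⟨hG, h.1, h.2, hX⟩]
      · rw [enc_a0_neg X h hX, enc_a0_neg (pull X G l) ⟨hi, hj⟩]
        rintro ⟨-, _, _, h3⟩
        exact hX h3
    · rw [enc_out X 0 _ _ h, enc_a0_neg (pull X G l) ⟨hi, hj⟩]
      rintro ⟨-, h1, h2, -⟩
      exact h ⟨h1, h2⟩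
  · have h1 : 1 - (1 - e) = 0 := by
      have : ¬ e ≠ 0 := fun h => hG (he.1 h)
      omega
    rw [h1, zero_mul, enc_a0_neg (pull X G l) ⟨hi, hj⟩]
    rintro ⟨h3, -⟩
    exact hG h3

end Enc

/-- the memory of a copy with the part of the input before the place `(k, l)` -/
def part (E : ℕ → ℕ → ℕ → ℕ) (k l : ℕ) : Mem :=
  ⟨fun _ => 0, fun r i c => if i < k ∨ (i = k ∧ c < l) then E r i c else 0⟩

theorem part_step {E : ℕ → ℕ → ℕ → ℕ} (hE : ∀ r, 2 ≤ r → ∀ i c, E r i c = 0) (k l : ℕ) :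
    ((part E k l).setA 0 k l (E 0 k l)).setA 1 k l (E 1 k l) = part E k (l + 1) := by
  unfold part Mem.setA
  simp only
  congr 1
  funext r i c
  by_cases h : i = k ∧ c = l
  · obtain ⟨rfl, rfl⟩ := h
    by_cases h1 : r = 1
    · subst h1
      simp
    · by_cases h0 : r = 0
      · subst h0
        simp
      · simp [h0, h1, hE r (by omega)]
  · rw [if_neg (fun hh => h hh.2), if_neg (fun hh => h hh.2)]
    by_cases h2 : i < k ∨ (i = k ∧ c < l)
    · rw [if_pos h2, if_pos (by omega)]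
    · rw [if_neg h2, if_neg (by omega)]

theorem part_row {E : ℕ → ℕ → ℕ → ℕ} {n : ℕ} (hE : ∀ r i c, n ≤ c → E r i c = 0) (k : ℕ) :
    part E k n = part E (k + 1) 0 := by
  unfold part
  congr 1
  funext r i c
  by_cases hc : n ≤ c
  · rw [hE r i c hc]
    simp
  · by_cases h2 : i < k + 1
    · rw [if_pos (by omega), if_pos (by omega)]
    · rw [if_neg (by omega), if_neg (by omega)]

theorem part_all {E : ℕ → ℕ → ℕ → ℕ} {n : ℕ} (hE : ∀ r i c, n ≤ i → E r i c = 0) :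
    part E n 0 = ⟨fun _ => 0, E⟩ := by
  unfold part
  congr 1
  funext r i c
  by_cases hc : n ≤ i
  · rw [hE r i c hc]
    simp
  · rw [if_pos (by omega)]

theorem part_zero {E : ℕ → ℕ → ℕ → ℕ} : part E 0 0 = ⟨fun _ => 0, fun _ _ _ => 0⟩ := by
  unfold part
  congr 1
  funext r i c
  rw [if_neg (by omega)]

section Fill

variable {P g : Algo} {p q n k W' : ℕ} (N : Num P g p q n k W')

include N

/-- the loop which writes the input of a copy -/
theorem fill_tr (X : Instance n) (G : SimpleGraph (Fin n)) {ω' : ℕ → ℕ → ℕ} {μp : Mem}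
    (hμ : ∀ i j : Fin n, μp.a 2 i j ≠ 0 ↔ G.Adj i j) (hμW : ∀ i j, μp.a 2 i j < W') {h idx : ℕ}
    (hh : h < nG k n) (hidx : idx < nL k n) (m₀ : Mem) (hR : RGE n k m₀)
    (h0 : m₀.a 0 = X.enc.a 0) (h1 : m₀.a 1 = X.enc.a 1)
    (h5 : ∀ x < n, m₀.a 5 0 x = lab k n ω' h x) (hp : Inst (nL k n + 1) (nL k n) m₀ μp)
    (hv1 : m₀.v 1 = idx) (hz : Inst (nL k n + 1) idx m₀ ⟨fun _ => 0, fun _ _ _ => 0⟩) :
    Tr W' ω' (forR 12 (.reg 0) (forR 13 (.reg 0)
        (.seq (.store 11 (.reg 12) (eAdd (eMul (.reg 13) (.reg 2)) (.reg 1))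
            (eMul patE (.get 0 (.get 5 (.lit 0) (.reg 12)) (.get 5 (.lit 0) (.reg 13)))))
          (.store 12 (.reg 12) (eAdd (eMul (.reg 13) (.reg 2)) (.reg 1))
            (.get 1 (.get 5 (.lit 0) (.reg 12)) (.get 5 (.lit 0) (.reg 13))))))) m₀
      (5 + n * (12 + n * 70))
      (fun m' => WJ (nL k n + 1) idx m₀ m' ⟨fun _ => 0, (pull X G (lab k n ω' h)).enc.a⟩) := by
  have hnW := N.nW
  have hLW := N.LW
  have h300 := N.n300
  have h300' : 1 ≤ n ^ 300 := Nat.one_le_pow _ _ N.n1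
  have hidx' : idx < nL k n + 1 := by omega
  obtain ⟨E, hEd⟩ : ∃ E, E = (pull X G (lab k n ω' h)).enc.a := ⟨_, rfl⟩
  have hE2 : ∀ r, 2 ≤ r → ∀ i c, E r i c = 0 := by
    intro r hr i c
    rw [hEd]
    exact enc_ge2 _ _ _ _ hr
  have hEc : ∀ r i c, n ≤ c → E r i c = 0 := by
    intro r i c hc
    rw [hEd]
    exact enc_out _ _ _ _ (by omega)
  have hEi : ∀ r i c, n ≤ i → E r i c = 0 := by
    intro r i c hc
    rw [hEd]
    exact enc_out _ _ _ _ (by omega)
  have hbase : WJ (nL k n + 1) idx m₀ m₀ (part E 0 0) :=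
    ⟨fun _ _ _ => rfl, CF.refl _ _ _, by rw [part_zero]; exact hz⟩
  have hRm : ∀ {m ν : Mem}, WJ (nL k n + 1) idx m₀ m ν → RGE n k m := by
    intro m ν hm
    exact hR.of_eq (fun y hy _ => hm.1 y (by omega) (by omega))
  have hrow : n * (1 + 6 + (5 + n * 70)) = n * (12 + n * 70) := by ring
  refine (Tr.forR (x := 12) (e := .reg 0)
    (I := fun i m => WJ (nL k n + 1) idx m₀ m (part E i 0))
    (T := fun _ => 5 + n * 70) n (by omega) ?_ ?_ ?_ ?_).le ?_
  · exact hbase.setV (Or.inl rfl) 0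
  · intro i hi m hm _
    have := (hRm hm).1
    exact ⟨show m.v 0 < W' by omega, this⟩
  · intro i hi m hm h12
    refine (Tr.forR (x := 13) (e := .reg 0)
      (I := fun c m' => WJ (nL k n + 1) idx m₀ m' (part E i c) ∧ m'.v 12 = i)
      (T := fun _ => 63) n (by omega) ?_ ?_ ?_ ?_).le ?_
    · refine ⟨hm.setV (Or.inr rfl) 0, ?_⟩
      rw [setV_v, if_neg (by omega)]
      exact h12
    · intro l hl m' hm' _
      have := (hRm hm'.1).1
      exact ⟨show m'.v 0 < W' by omega, this⟩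
    · rintro c hc m' ⟨hm', h12'⟩ h13
      have hR' := hRm hm'
      have h1' : m'.v 1 = idx := (hm'.1 1 (by omega) (by omega)).trans hv1
      have had : c * (nL k n + 1) + idx < W' := addr N (by omega) hidx'
      have hpad : c * (nL k n + 1) + nL k n < W' := addr N (by omega) (Nat.lt_succ_self _)
      have hml : c * (nL k n + 1) < W' := by omega
      have hpI : Inst (nL k n + 1) (nL k n) m' μp :=
        hm'.2.1.inst (Nat.lt_succ_self _) (by omega) hp
      -- the address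
      have va : ∀ m'' : Mem, m''.v = m'.v →
          V W' ω' m'' (eAdd (eMul (.reg 13) (.reg 2)) (.reg 1)) (c * (nL k n + 1) + idx) := by
        intro m'' hv
        refine V.add (V.mul (V.reg (by rw [hv]; exact h13) (by omega))
          (V.reg (by rw [hv]; exact hR'.2.1) (by omega)) hml) (V.reg (by rw [hv]; exact h1')
          (by omega)) had
      have v12 : ∀ m'' : Mem, m''.v = m'.v → V W' ω' m'' (.reg 12) i := by
        intro m'' hv
        exact V.reg (by rw [hv]; exact h12') (by omega)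
      have v13 : ∀ m'' : Mem, m''.v = m'.v → V W' ω' m'' (.reg 13) c := by
        intro m'' hv
        exact V.reg (by rw [hv]; exact h13) (by omega)
      have vli : ∀ m'' : Mem, m''.v = m'.v → m''.a 5 = m'.a 5 →
          V W' ω' m'' (.get 5 (.lit 0) (.reg 12)) (lab k n ω' h i) := by
        intro m'' hv ha
        refine V.get (V.lit (by omega)) (v12 m'' hv) ?_ (lab_lt N hh ω' i)
        rw [ha, hm'.2.1.1 5 (by omega)]
        exact h5 i hi
      have vlc : ∀ m'' : Mem, m''.v = m'.v → m''.a 5 = m'.a 5 →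
          V W' ω' m'' (.get 5 (.lit 0) (.reg 13)) (lab k n ω' h c) := by
        intro m'' hv ha
        refine V.get (V.lit (by omega)) (v13 m'' hv) ?_ (lab_lt N hh ω' c)
        rw [ha, hm'.2.1.1 5 (by omega)]
        exact h5 c hc
      have vpat : V W' ω' m' patE (1 - (1 - μp.a 2 i c)) := by
        refine V.sub (V.lit (by omega)) (V.sub (V.lit (by omega)) (V.get (v12 m' rfl)
          (V.add (V.mul (v13 m' rfl) (V.reg hR'.2.1 (by omega)) hml)
            (V.sub (V.reg hR'.2.1 (by omega)) (V.lit (by omega))) ?_) ?_ (hμW i c)))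
        · rw [Nat.add_sub_cancel]
          exact hpad
        · rw [Nat.add_sub_cancel]
          exact hpI.2 2 i c
      have a0le := enc_a0_le X (lab k n ω' h i) (lab k n ω' h c)
      have a1le := enc_a1_le X (lab k n ω' h i) (lab k n ω' h c)
      have e0 : E 0 i c = (1 - (1 - μp.a 2 i c)) * X.enc.a 0 (lab k n ω' h i) (lab k n ω' h c) := by
        rw [hEd]
        exact pull_a0 X G _ hi hc (hμ ⟨i, hi⟩ ⟨c, hc⟩)
      have e1 : E 1 i c = X.enc.a 1 (lab k n ω' h i) (lab k n ω' h c) := by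
        rw [hEd]
        exact pull_a1 X G _ hi hc
      have v0 : V W' ω' m' (eMul patE (.get 0 (.get 5 (.lit 0) (.reg 12))
          (.get 5 (.lit 0) (.reg 13)))) (E 0 i c) := by
        rw [e0]
        refine V.mul vpat (V.get (vli m' rfl rfl) (vlc m' rfl rfl) ?_ (by omega)) ?_
        · rw [hm'.2.1.1 0 (by omega), h0]
        · calc (1 - (1 - μp.a 2 i c)) * X.enc.a 0 (lab k n ω' h i) (lab k n ω' h c)
              ≤ 1 * 1 := Nat.mul_le_mul (by omega) a0le
            _ < W' := by omega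
      obtain ⟨m₁, hm₁⟩ : ∃ m₁, m₁ = m'.setA 11 i (c * (nL k n + 1) + idx) (E 0 i c) := ⟨_, rfl⟩
      have hv₁ : m₁.v = m'.v := by rw [hm₁]; rfl
      have ha₁ : ∀ r, r ≠ 11 → m₁.a r = m'.a r := by
        intro r hr
        rw [hm₁]
        funext x y
        rw [setA_a, if_neg (fun hh => hr hh.1)]
      have v1 : V W' ω' m₁ (.get 1 (.get 5 (.lit 0) (.reg 12))
          (.get 5 (.lit 0) (.reg 13))) (E 1 i c) := by
        rw [e1]
        refine V.get (vli m₁ hv₁ (ha₁ 5 (by omega))) (vlc m₁ hv₁ (ha₁ 5 (by omega))) ?_ (by omega)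
        rw [ha₁ 1 (by omega), hm'.2.1.1 1 (by omega), h1]
      refine seqS (T := 21) (v12 m' rfl) (va m' rfl) v0 ?_ (by decide)
      rw [← hm₁]
      refine trS (v12 m₁ hv₁) (va m₁ hv₁) v1 ?_ (by decide)
      refine ⟨?_, ?_, ?_⟩
      · show m₁.v 13 = c
        rw [hv₁]
        exact h13
      · refine WJ.setV ?_ (Or.inr rfl) _
        rw [hm₁]
        exact ((hm'.store hidx' 0 i c (E 0 i c)).store hidx' 1 i c (E 1 i c)).congr
          (part_step hE2 i c)
      · show m₁.v 12 = i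
        rw [hv₁]
        exact h12'
    · rintro m' ⟨hm', h12'⟩ _
      refine ⟨h12', (hm'.setV (Or.inl rfl) (i + 1)).congr (part_row hEc i)⟩
    · simp only [Expr.cost, Finset.sum_const, Finset.card_range, smul_eq_mul]
      omega
  · intro m' hm' _
    rw [← hEd]
    exact hm'.congr (part_all hEi)
  · simp only [Expr.cost, Finset.sum_const, Finset.card_range, smul_eq_mul]
    omega

end Fill

end Pool.Agent.W2helper86.ET
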