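import Pool.Agent.W2helper86.ET.Red1

set_option autoImplicit false

/-!
# Project ETU, piece RED: the copies of a group
-/

namespace Pool.Agent.W2helper86.ET

open Pool.Agent.W2helper22.SM Pool.Agent.W2helper22.ET Pool.Agent.W2helper86.SM

/-- the part of the memory which is not changed by the copies -/
def Env {n : ℕ} (X : Instance n) (k : ℕ) (μp m : Mem) : Prop :=
  RGE n k m ∧ m.a 0 = X.enc.a 0 ∧ m.a 1 = X.enc.a 1 ∧ Inst (nL k n + 1) (nL k n) m μp

theorem Env.setV {n : ℕ} {X : Instance n} {k : ℕ} {μp m : Mem} (h : Env X k μp m) {x : ℕ}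
    (hx : 8 ≤ x ∨ x = 1) (a : ℕ) : Env X k μp (m.setV x a) := by
  refine ⟨h.1.of_eq ?_, h.2.1, h.2.2.1, h.2.2.2⟩
  intro y hy hy1
  rw [setV_v, if_neg (by omega)]

theorem Env.cf {n : ℕ} {X : Instance n} {k : ℕ} {μp m m' : Mem} (h : Env X k μp m)
    (hv : ∀ y, y ≤ 7 → y ≠ 1 → m'.v y = m.v y) {idx : ℕ} (hidx : idx < nL k n)
    (hcf : CF (nL k n + 1) idx m m') : Env X k μp m' :=
  ⟨h.1.of_eq hv, (hcf.1 0 (by omega)).trans h.2.1, (hcf.1 1 (by omega)).trans h.2.2.1,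
    hcf.inst (Nat.lt_succ_self _) (by omega) h.2.2.2⟩

/-- the number of the yes answers among the first `l` copies of the group `h` -/
def cnt (n : ℕ) (μ : ℕ → Mem) (h l : ℕ) : ℕ :=
  ((Finset.range l).filter (fun j => (μ (h * cK n + j)).v 1 ≠ 0)).card

theorem cnt_succ (n : ℕ) (μ : ℕ → Mem) (h l : ℕ) :
    cnt n μ h (l + 1) = cnt n μ h l + (1 - (1 - (μ (h * cK n + l)).v 1)) := by
  unfold cnt
  rw [Finset.range_add_one, Finset.filter_insert]
  split_ifs with hc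
  · rw [Finset.card_insert_of_notMem (by simp)]
    omega
  · omega

theorem cnt_le (n : ℕ) (μ : ℕ → Mem) (h l : ℕ) : cnt n μ h l ≤ l := by
  unfold cnt
  refine (Finset.card_filter_le _ _).trans ?_
  rw [Finset.card_range]

section Copy

variable {P g : Algo} {p q n k W' : ℕ} (N : Num P g p q n k W')

include N

/-- one copy -/
theorem copy_tr (X : Instance n) (G : SimpleGraph (Fin n)) {ω' : ℕ → ℕ → ℕ} {ω : ℕ → ℕ → ℕ}
    {μp : Mem} (hμ : ∀ i j : Fin n, μp.a 2 i j ≠ 0 ↔ G.Adj i j) (hμW : ∀ i j, μp.a 2 i j < W')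
    {h j : ℕ} (hh : h < nG k n) (hj : j < cK n) {ν : Mem} {t : ℕ}
    (hω : ∀ i < P.W n, ∀ j' < P.W n,
      ω' (2 * i) (j' * (nL k n + 1) + (h * cK n + j)) = ω i j')
    (hrun : Runs (P.W n) ω P.prog (pull X G (lab k n ω' h)).enc ν t)
    (m : Mem) (hE : Env X k μp m) (h5 : ∀ x < n, m.a 5 0 x = lab k n ω' h x)
    (h8 : m.v 8 = h) (h9 : m.v 9 = j)
    (hz : Inst (nL k n + 1) (h * cK n + j) m ⟨fun _ => 0, fun _ _ _ => 0⟩) {c : ℕ}
    (h23 : m.v 23 = c) (hc : c + 1 < W') :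
    Tr W' ω' (copyP P) m (25 + n * (12 + n * 70) + 10 * t)
      (fun m' => (∀ y, y ≠ 1 → y ≠ 12 → y ≠ 13 → y ≠ 23 → m'.v y = m.v y) ∧
        m'.v 23 = c + (1 - (1 - ν.v 1)) ∧ CF (nL k n + 1) (h * cK n + j) m m') := by
  have hidx := idx_lt hh hj
  obtain ⟨idx, hidxe⟩ : ∃ idx, idx = h * cK n + j := ⟨_, rfl⟩
  have hnW := N.nW
  have hLW := N.LW
  have hKL := N.KL
  have hGL := N.hG
  have hW2 := N.W2
  obtain ⟨hR, h0, h1, hp⟩ := hE
  have hb : h * cK n < W' := by omega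
  rw [← hidxe] at hω hz hidx ⊢
  unfold copyP
  refine seqA (x := idx) (T := 19 + n * (12 + n * 70) + 10 * t)
    ((V.add (V.mul (V.reg h8 (by omega)) (V.reg hR.2.2.2.2.1 (by omega)) hb)
      (V.reg h9 (by omega)) (by omega)).cast hidxe.symm) ?_ (by simp only [Expr.cost]; omega)
  obtain ⟨m₁, hm₁⟩ : ∃ m₁, m₁ = m.setV 1 idx := ⟨_, rfl⟩
  have hv1 : ∀ y, y ≠ 1 → m₁.v y = m.v y := by
    intro y hy
    rw [hm₁, setV_v, if_neg hy]
  have h11 : m₁.v 1 = idx := by rw [hm₁]; simp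
  have ha1 : m₁.a = m.a := by rw [hm₁]; rfl
  have hR1 : RGE n k m₁ := hR.of_eq (fun y _ hy => hv1 y hy)
  rw [← hm₁]
  refine (Tr.seq (T₁ := 5 + n * (12 + n * 70)) (T₂ := 14 + 10 * t)
    ((fill_tr N X G hμ hμW hh hidx m₁ hR1 (by rw [ha1]; exact h0) (by rw [ha1]; exact h1)
      (by rw [ha1]; exact h5) (by rw [hm₁]; exact hp) h11
      (by rw [hm₁]; exact hz)).mono ?_)).le (by omega)
  intro m₂ hm₂
  have hv2 : ∀ y, y ≠ 12 → y ≠ 13 → m₂.v y = m₁.v y := fun y h1 h2 => hm₂.1 y h1 h2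
  have hR2 : RGE n k m₂ := hR1.of_eq (fun y hy _ => hv2 y (by omega) (by omega))
  have h21 : m₂.v 1 = idx := (hv2 1 (by omega) (by omega)).trans h11
  refine seqS (a := 0) (b := idx) (x := n) (T := 10 + 10 * t) (V.lit (by omega))
    (V.reg h21 (by omega)) (V.reg hR2.1 (by omega)) ?_ (by simp only [Expr.cost]; omega)
  obtain ⟨hI1, hF1⟩ := assign_inst hm₂.2.2 0 n
  have hinit : (Mem.setV ⟨fun _ => 0, (pull X G (lab k n ω' h)).enc.a⟩ 0 n)
      = (pull X G (lab k n ω' h)).enc := rfl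
  rw [hinit] at hI1
  have hsim := sim' (P.W n) W' (nL k n + 1) idx ω ω' P.prog (m₂.setA 10 0 idx n) _ _ t (by omega)
    (by omega) (by omega) N.W2 N.WL N.mxP hω h21 hR2.2.1 hI1 hrun
  refine (Tr.seq (T₁ := 10 * t) (T₂ := 10) (hsim.mono ?_)).le (by omega)
  rintro m₃ ⟨hI3, hF3⟩
  have hv3 : m₃.v = m₂.v := by rw [hF3.1]; rfl
  have hν1 : ν.v 1 < W' := by
    refine regs_lt hrun (by omega) ?_
    show (if 1 = 0 then n else 0) < W'
    simp
    omega
  have h323 : m₃.v 23 = c := by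
    rw [hv3, hv2 23 (by omega) (by omega), hv1 23 (by omega)]
    exact h23
  refine trA (x := c + (1 - (1 - ν.v 1))) (V.add (V.reg h323 (by omega))
    (V.sub (V.lit (by omega)) (V.sub (V.lit (by omega)) (V.get (V.lit (by omega))
      (V.reg (n := idx) (by rw [hv3]; exact h21) (by omega)) (hI3.1 1) hν1))) (by omega)) ?_
    (by decide)
  refine ⟨?_, ?_, ?_⟩
  · intro y y1 y12 y13 y23
    rw [setV_v, if_neg y23, hv3, hv2 y y12 y13, hv1 y y1]
  · simp
  · refine CF.trans ?_ (CF.setV _ _ _)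
    refine CF.trans ?_ (CF.of_sim hF3)
    refine CF.trans ?_ (CF.of_sim hF1)
    refine CF.trans ?_ hm₂.2.1
    rw [hm₁]
    exact CF.setV _ _ _

/-- the copies of a group -/
theorem copies_tr (X : Instance n) (G : SimpleGraph (Fin n)) {ω' : ℕ → ℕ → ℕ}
    {ω : ℕ → ℕ → ℕ → ℕ} {μp : Mem} (hμ : ∀ i j : Fin n, μp.a 2 i j ≠ 0 ↔ G.Adj i j)
    (hμW : ∀ i j, μp.a 2 i j < W') {h : ℕ} (hh : h < nG k n) {μ : ℕ → Mem} {t : ℕ → ℕ}
    (hω : ∀ idx < nL k n, ∀ i < P.W n, ∀ j' < P.W n,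
      ω' (2 * i) (j' * (nL k n + 1) + idx) = ω idx i j')
    (hrun : ∀ j < cK n, Runs (P.W n) (ω (h * cK n + j)) P.prog
      (pull X G (lab k n ω' h)).enc (μ (h * cK n + j)) (t (h * cK n + j)))
    (m : Mem) (hE : Env X k μp m) (h5 : ∀ x < n, m.a 5 0 x = lab k n ω' h x)
    (h8 : m.v 8 = h)
    (hz : ∀ idx < nL k n, h * cK n ≤ idx →
      Inst (nL k n + 1) idx m ⟨fun _ => 0, fun _ _ _ => 0⟩)
    (h23 : m.v 23 = 0) :
    Tr W' ω' (forR 9 (.reg 5) (copyP P)) m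
      (5 + ∑ j ∈ Finset.range (cK n), (32 + n * (12 + n * 70) + 10 * t (h * cK n + j)))
      (fun m' => Env X k μp m' ∧ m'.v 8 = h ∧ m'.v 24 = m.v 24 ∧
        (∀ idx < nL k n, (h + 1) * cK n ≤ idx →
          Inst (nL k n + 1) idx m' ⟨fun _ => 0, fun _ _ _ => 0⟩) ∧
        m'.v 23 = cnt n μ h (cK n)) := by
  have hnW := N.nW
  have hLW := N.LW
  have hKL := N.KL
  refine (Tr.forR (x := 9) (e := .reg 5)
    (I := fun l m' => (Env X k μp m' ∧ (∀ x < n, m'.a 5 0 x = lab k n ω' h x) ∧ m'.v 8 = h ∧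
      m'.v 24 = m.v 24) ∧ (∀ idx < nL k n, h * cK n + l ≤ idx →
          Inst (nL k n + 1) idx m' ⟨fun _ => 0, fun _ _ _ => 0⟩) ∧
        m'.v 23 = cnt n μ h l)
    (T := fun j => 25 + n * (12 + n * 70) + 10 * t (h * cK n + j)) (cK n) (by omega)
      ?_ ?_ ?_ ?_).le ?_
  · refine ⟨⟨hE.setV (by omega) 0, h5, ?_, ?_⟩, ?_, ?_⟩
    · rw [setV_v, if_neg (by omega)]
      exact h8
    · rw [setV_v, if_neg (by omega)]
    · intro idx h1 h2
      exact hz idx h1 (by omega)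
    · rw [setV_v, if_neg (by omega), h23]
      rfl
  · intro l hl m' hm' _
    have : m'.v 5 = cK n := hm'.1.1.1.2.2.2.2.1
    exact ⟨show m'.v 5 < W' by omega, this⟩
  · rintro l hl m' ⟨⟨hE', h5', h8', h24'⟩, hz', h23'⟩ h9'
    have hidx := idx_lt hh hl
    have hcl := cnt_le n μ h l
    refine (copy_tr N X G hμ hμW hh hl (hω _ hidx) (hrun l hl) m' hE' h5' h8' h9'
      (hz' _ hidx le_rfl) h23' (by omega)).mono ?_
    rintro m'' ⟨hv, hv23, hcf⟩
    refine ⟨(hv 9 (by omega) (by omega) (by omega) (by omega)).trans h9',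
      ⟨Env.setV (hE'.cf (fun y hy y1 => hv y y1 (by omega) (by omega) (by omega)) hidx hcf)
        (by omega) _, ?_, ?_, ?_⟩, ?_, ?_⟩
    · intro x hx
      show m''.a 5 0 x = _
      rw [hcf.1 5 (by omega)]
      exact h5' x hx
    · rw [setV_v, if_neg (by omega), hv 8 (by omega) (by omega) (by omega) (by omega)]
      exact h8'
    · rw [setV_v, if_neg (by omega), hv 24 (by omega) (by omega) (by omega) (by omega)]
      exact h24'
    · intro idx h1 h2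
      exact hcf.inst (by omega) (by omega) (hz' idx h1 (by omega))
    · rw [setV_v, if_neg (by omega), hv23, cnt_succ]
  · rintro m' ⟨⟨hE', h5', h8', h24'⟩, hz', h23'⟩ _
    refine ⟨hE', h8', h24', ?_, h23'⟩
    intro idx h1 h2
    have : (h + 1) * cK n = h * cK n + cK n := by ring
    exact hz' idx h1 (by omega)
  · have : ∀ j, (Expr.reg 5).cost + 6 + (25 + n * (12 + n * 70) + 10 * t (h * cK n + j))
        = 32 + n * (12 + n * 70) + 10 * t (h * cK n + j) := by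
      intro j
      simp only [Expr.cost]
      omega
    simp only [this]
    simp only [Expr.cost]
    omega

end Copy

end Pool.Agent.W2helper86.ET
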