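import Pool.Agent.W2helper86.ET.Red2

set_option autoImplicit false

/-!
# Project ETU, piece RED: a group
-/

namespace Pool.Agent.W2helper86.ET

open Pool.Agent.W2helper22.SM Pool.Agent.W2helper22.ET Pool.Agent.W2helper86.SM

/-- the registers of the group `h` -/
def GR (n k h : ℕ) (m : Mem) : Prop :=
  m.v 14 = s1 k n h ∧ m.v 15 = s2 k n h ∧ m.v 16 = s3 k n h ∧ m.v 20 = i1 k n h ∧
    m.v 21 = i2 k n h ∧ m.v 22 = i3 k n h ∧ m.v 0 = n ∧ m.v 8 = h

section Grp

variable {P g : Algo} {p q n k W' : ℕ} (N : Num P g p q n k W')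

include N

/-- one label -/
theorem setLab_tr {ω' : ℕ → ℕ → ℕ} (hω : ∀ i j, ω' i j < 2 ^ bits n) {h : ℕ} (hh : h < nG k n)
    (m : Mem) (hG : GR n k h m) {x : ℕ} (hx : x < n) (h12 : m.v 12 = x) {Q : Mem → Prop}
    (hQ : Q (m.setA 5 0 x (lab k n ω' h x))) : Tr W' ω' setLab m 70 Q := by
  have hnW := N.nW
  have hnW4 := N.nW4
  have hLW := N.LW
  have hGL := N.hG
  have hG100 := N.G100
  have hbn := N.bn
  have hkn := N.k3
  have hUW := N.UW
  obtain ⟨r14, r15, r16, r20, r21, r22, r0, r8⟩ := hG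
  obtain ⟨g1, g2, g3, g4, g5, g6⟩ := grp N hh
  have hb : bits n ≤ n + 1 := by
    have := Nat.log_le_self 2 n
    unfold bits
    omega
  have h5 : n * n * n + 1 ≤ (n * n * n + 1) * (n + 1) := Nat.le_mul_of_pos_right _ (by omega)
  have m1 := mul_i1 N hh
  have m2 := mul_i2 N hh
  have m3 := mul_i3 N hh
  have p1 := pow_s N g1
  have p2 := pow_s N g2
  have p3 := pow_k N g3
  have hlabW := lab_lt N hh ω' x
  have hkW : s3 k n h < W' := by
    have : s3 k n h < 2 ^ s3 k n h := Nat.lt_two_pow_self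
    omega
  have q1 : ω' (2 * x + 1) (2 * h + 1) % 2 ^ s1 k n h < 2 ^ s1 k n h :=
    Nat.mod_lt _ (Nat.two_pow_pos _)
  have q2 : ω' (2 * x + 1) (2 * h + 1) % 2 ^ s2 k n h < 2 ^ s2 k n h :=
    Nat.mod_lt _ (Nat.two_pow_pos _)
  have q3 : ω' (2 * x + 1) (2 * h + 1) % 2 ^ s3 k n h < 2 ^ s3 k n h :=
    Nat.mod_lt _ (Nat.two_pow_pos _)
  have hi2 : i2 k n h ≤ n := by
    have : n / 2 ^ s2 k n h ≤ n := Nat.div_le_self _ _
    unfold b2 at g5
    omega
  have hi3 : i3 k n h ≤ n := by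
    have : n / 2 ^ s3 k n h ≤ n := Nat.div_le_self _ _
    unfold b3 at g6
    omega
  have w1 := hω (2 * x + 1) (2 * h)
  have w2 := hω (2 * x + 1) (2 * h + 1)
  have v12 : V W' ω' m (.reg 12) x := V.reg h12 (by omega)
  have v8 : V W' ω' m (.reg 8) h := V.reg r8 (by omega)
  have v2x1 : V W' ω' m (eAdd (eMul (.lit 2) (.reg 12)) (.lit 1)) (2 * x + 1) :=
    V.add (V.mul (V.lit (by omega)) v12 (by omega)) (V.lit (by omega)) (by omega)
  have v2h : V W' ω' m (eMul (.lit 2) (.reg 8)) (2 * h) :=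
    V.mul (V.lit (by omega)) v8 (by omega)
  have v2h1 : V W' ω' m (eAdd (eMul (.lit 2) (.reg 8)) (.lit 1)) (2 * h + 1) :=
    V.add v2h (V.lit (by omega)) (by omega)
  have vrole : V W' ω' m roleE (ω' (2 * x + 1) (2 * h) % 4) :=
    V.mod (V.rnd v2x1 v2h rfl (by omega)) (V.lit (by omega))
  have vrnd : V W' ω' m (.rnd (eAdd (eMul (.lit 2) (.reg 12)) (.lit 1))
      (eAdd (eMul (.lit 2) (.reg 8)) (.lit 1))) (ω' (2 * x + 1) (2 * h + 1)) :=
    V.rnd v2x1 v2h1 rfl (by omega)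
  have vlab : ∀ {i s a b : ℕ}, m.v i = a → m.v s = b → a < W' → b < W' → 2 ^ b < W' →
      a * 2 ^ b + ω' (2 * x + 1) (2 * h + 1) % 2 ^ b < W' →
      V W' ω' m (labE i s) (a * 2 ^ b + ω' (2 * x + 1) (2 * h + 1) % 2 ^ b) := by
    intro i s a b hi hs ha hb hb2 hab
    exact V.add (V.mul (V.reg hi ha) (V.shl (V.reg hs hb) (by omega) hb2) (by omega))
      (V.mod vrnd (V.shl (V.reg hs hb) (by omega) hb2)) hab
  unfold setLab
  refine iteEq vrole (V.lit (by omega)) ?_ ?_ (T := 56) (by decide)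
  · intro e1
    refine trS (V.lit (by omega)) v12 (vlab r20 r14 (by omega) (by omega) (by omega) (by omega)) ?_
      (by decide)
    unfold lab at hQ
    rw [if_pos e1] at hQ
    exact hQ
  intro e1
  refine iteEq vrole (V.lit (by omega)) ?_ ?_ (T := 42) (by decide)
  · intro e2
    refine trS (V.lit (by omega)) v12 (vlab r21 r15 (by omega) (by omega) (by omega) (by omega)) ?_
      (by decide)
    unfold lab at hQ
    rw [if_neg e1, if_pos e2] at hQ
    exact hQ
  intro e2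
  refine iteEq vrole (V.lit (by omega)) ?_ ?_ (T := 28) (by decide)
  · intro e3
    refine trS (V.lit (by omega)) v12 (vlab r22 r16 (by omega) (by omega) (by omega) (by omega)) ?_
      (by decide)
    unfold lab at hQ
    rw [if_neg e1, if_neg e2, if_pos e3] at hQ
    exact hQ
  intro e3
  refine trS (V.lit (by omega)) v12 (V.reg r0 (by omega)) ?_ (by decide)
  unfold lab at hQ
  rw [if_neg e1, if_neg e2, if_neg e3] at hQ
  exact hQ

/-- all labels -/
theorem labs_tr {ω' : ℕ → ℕ → ℕ} (hω : ∀ i j, ω' i j < 2 ^ bits n) {h : ℕ} (hh : h < nG k n)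
    (m : Mem) (hG : GR n k h m) :
    Tr W' ω' (forR 12 (.reg 0) setLab) m (5 + n * 77)
      (fun m' => (∀ y, y ≠ 12 → m'.v y = m.v y) ∧ (∀ r, r ≠ 5 → m'.a r = m.a r) ∧
        ∀ x < n, m'.a 5 0 x = lab k n ω' h x) := by
  have hnW := N.nW
  refine (Tr.forR (x := 12) (e := .reg 0)
    (I := fun l m' => (∀ y, y ≠ 12 → m'.v y = m.v y) ∧ (∀ r, r ≠ 5 → m'.a r = m.a r) ∧
        ∀ x < l, m'.a 5 0 x = lab k n ω' h x)
    (T := fun _ => 70) n (by omega) ?_ ?_ ?_ ?_).le ?_
  · refine ⟨?_, fun _ _ => rfl, fun x hx => absurd hx (Nat.not_lt_zero _)⟩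
    intro y hy
    rw [setV_v, if_neg hy]
  · rintro l hl m' ⟨hv, -, -⟩ _
    have : m'.v 0 = n := (hv 0 (by omega)).trans hG.2.2.2.2.2.2.1
    exact ⟨show m'.v 0 < W' by omega, this⟩
  · rintro l hl m' ⟨hv, ha, hl5⟩ h12
    have hG' : GR n k h m' := by
      obtain ⟨r14, r15, r16, r20, r21, r22, r0, r8⟩ := hG
      exact ⟨(hv 14 (by omega)).trans r14, (hv 15 (by omega)).trans r15,
        (hv 16 (by omega)).trans r16, (hv 20 (by omega)).trans r20, (hv 21 (by omega)).trans r21,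
        (hv 22 (by omega)).trans r22, (hv 0 (by omega)).trans r0, (hv 8 (by omega)).trans r8⟩
    refine setLab_tr N hω hh m' hG' hl h12 ⟨h12, ?_, ?_, ?_⟩
    · intro y hy
      rw [setV_v, if_neg hy]
      exact hv y hy
    · intro r hr
      rw [← ha r hr]
      funext i j
      show (m'.setA 5 0 l (lab k n ω' h l)).a r i j = _
      rw [setA_a, if_neg (fun hh => hr hh.1)]
    · intro x hx
      show (m'.setA 5 0 l (lab k n ω' h l)).a 5 0 x = _
      rw [setA_a]
      by_cases hxl : x = l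
      · rw [if_pos ⟨rfl, rfl, hxl⟩, hxl]
      · rw [if_neg (fun hh => hxl hh.2.2)]
        exact hl5 x (by omega)
  · rintro m' ⟨hv, ha, hl5⟩ _
    exact ⟨hv, ha, hl5⟩
  · simp only [Expr.cost, Finset.sum_const, Finset.card_range, smul_eq_mul]
    omega

/-- one group -/
theorem group_tr (X : Instance n) (G : SimpleGraph (Fin n)) {ω' : ℕ → ℕ → ℕ}
    {ω : ℕ → ℕ → ℕ → ℕ} {μp : Mem} (hμ : ∀ i j : Fin n, μp.a 2 i j ≠ 0 ↔ G.Adj i j)
    (hμW : ∀ i j, μp.a 2 i j < W') (hωb : ∀ i j, ω' i j < 2 ^ bits n)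
    {h : ℕ} (hh : h < nG k n) {μ : ℕ → Mem} {t : ℕ → ℕ}
    (hω : ∀ idx < nL k n, ∀ i < P.W n, ∀ j' < P.W n,
      ω' (2 * i) (j' * (nL k n + 1) + idx) = ω idx i j')
    (hrun : ∀ j < cK n, Runs (P.W n) (ω (h * cK n + j)) P.prog
      (pull X G (lab k n ω' h)).enc (μ (h * cK n + j)) (t (h * cK n + j)))
    (m : Mem) (hE : Env X k μp m) (h8 : m.v 8 = h)
    (hz : ∀ idx < nL k n, h * cK n ≤ idx →
      Inst (nL k n + 1) idx m ⟨fun _ => 0, fun _ _ _ => 0⟩) :
    Tr W' ω' (groupP P) m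
      (100 + n * 77 + ∑ j ∈ Finset.range (cK n), (32 + n * (12 + n * 70) + 10 * t (h * cK n + j)))
      (fun m' => Env X k μp m' ∧ m'.v 8 = h ∧
        m'.v 24 = (if cK n < 2 * cnt n μ h (cK n) then 1 else m.v 24) ∧
        (∀ idx < nL k n, (h + 1) * cK n ≤ idx →
          Inst (nL k n + 1) idx m' ⟨fun _ => 0, fun _ _ _ => 0⟩)) := by
  have hnW := N.nW
  have hnW4 := N.nW4
  have hLW := N.LW
  have hGL := N.hG
  have hKL := N.KL
  have hUW := N.UW
  have hkn := N.k3
  obtain ⟨hR, hE0, hE1, hEp⟩ := id hE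
  obtain ⟨r0, r2, r3, r4, r5, r6, r7⟩ := id hR
  obtain ⟨g1, g2, g3, g4, g5, g6⟩ := grp N hh
  have h5 : n * n * n + 1 ≤ (n * n * n + 1) * (n + 1) := Nat.le_mul_of_pos_right _ (by omega)
  have p2 := pow_s N g2
  have p3 := pow_k N g3
  have hlog : Nat.log 2 n ≤ n := Nat.log_le_self 2 n
  have hkW : k < W' := by
    have : k < 2 ^ k := Nat.lt_two_pow_self
    omega
  have hb : bits n ≤ n + 1 := by
    unfold bits
    omega
  have hx1 : h / 4 / nU k n < W' := by
    have := Nat.div_le_self (h / 4) (nU k n)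
    omega
  have hx17 : h / 4 % nU k n < W' := by
    have := Nat.mod_le (h / 4) (nU k n)
    omega
  have hd3 : n / 2 ^ s3 k n h ≤ n := Nat.div_le_self _ _
  have hd2 : n / 2 ^ s2 k n h ≤ n := Nat.div_le_self _ _
  have hb3 : b3 k n h < W' := by unfold b3; omega
  have hb2 : b2 k n h < W' := by unfold b2; omega
  obtain ⟨S, hS⟩ : ∃ S, S = ∑ j ∈ Finset.range (cK n),
    (32 + n * (12 + n * 70) + 10 * t (h * cK n + j)) := ⟨_, rfl⟩
  rw [← hS]
  unfold groupP
  refine seqA (x := h / 4 % nU k n) (T := 90 + n * 77 + S)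
    (V.mod (V.div (V.reg h8 (by omega)) (V.lit (by omega))) (V.reg r6 hUW)) ?_
    (by simp only [Expr.cost]; omega)
  refine seqA (x := s1 k n h) (T := 80 + n * 77 + S)
    (V.div (V.div (V.div (V.reg h8 (by omega)) (V.lit (by omega))) (V.reg r6 hUW))
      (V.add (V.reg r3 (by omega)) (V.lit (by omega)) (by omega))) ?_
    (by simp only [Expr.cost]; omega)
  refine seqA (x := s2 k n h) (T := 70 + n * 77 + S)
    (V.mod (V.div (V.div (V.reg h8 (by omega)) (V.lit (by omega))) (V.reg r6 hUW))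
      (V.add (V.reg r3 (by omega)) (V.lit (by omega)) (by omega))) ?_
    (by simp only [Expr.cost]; omega)
  refine seqA (x := s3 k n h) (T := 62 + n * 77 + S)
    (V.sub (V.sub (V.reg r4 hkW) (V.reg (n := s1 k n h) rfl (by omega)))
      (V.reg (n := s2 k n h) rfl (by omega))) ?_
    (by simp only [Expr.cost]; omega)
  refine seqA (x := b3 k n h) (T := 54 + n * 77 + S)
    (V.add (V.div (V.reg r0 (by omega)) (V.shl (V.reg (n := s3 k n h) rfl (by omega))
      (by omega) (by omega))) (V.lit (by omega)) (by omega)) ?_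
    (by simp only [Expr.cost]; omega)
  refine seqA (x := b2 k n h) (T := 46 + n * 77 + S)
    (V.add (V.div (V.reg r0 (by omega)) (V.shl (V.reg (n := s2 k n h) rfl (by omega))
      (by omega) (by omega))) (V.lit (by omega)) (by omega)) ?_
    (by simp only [Expr.cost]; omega)
  refine seqA (x := i3 k n h) (T := 42 + n * 77 + S)
    (V.mod (V.reg (n := h / 4 % nU k n) rfl hx17) (V.reg (n := b3 k n h) rfl hb3)) ?_
    (by simp only [Expr.cost]; omega)
  refine seqA (x := i2 k n h) (T := 36 + n * 77 + S)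
    (V.mod (V.div (V.reg (n := h / 4 % nU k n) rfl hx17) (V.reg (n := b3 k n h) rfl hb3))
      (V.reg (n := b2 k n h) rfl hb2)) ?_
    (by simp only [Expr.cost]; omega)
  refine seqA (x := i1 k n h) (T := 30 + n * 77 + S)
    (V.div (V.div (V.reg (n := h / 4 % nU k n) rfl hx17) (V.reg (n := b3 k n h) rfl hb3))
      (V.reg (n := b2 k n h) rfl hb2)) ?_
    (by simp only [Expr.cost]; omega)
  obtain ⟨m₁, hm₁⟩ : ∃ m₁, m₁ = (((((((((m.setV 17 (h / 4 % nU k n)).setV 14 (s1 k n h)).setV 15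
    (s2 k n h)).setV 16 (s3 k n h)).setV 18 (b3 k n h)).setV 19 (b2 k n h)).setV 22
    (i3 k n h)).setV 21 (i2 k n h)).setV 20 (i1 k n h)) := ⟨_, rfl⟩
  rw [← hm₁]
  have hGR : GR n k h m₁ := by
    rw [hm₁]
    exact ⟨rfl, rfl, rfl, rfl, rfl, rfl, r0, h8⟩
  have hv1 : ∀ y, y ≤ 13 ∨ y = 24 → m₁.v y = m.v y := by
    intro y hy
    rw [hm₁]
    simp only [setV_v]
    rw [if_neg (by omega), if_neg (by omega), if_neg (by omega), if_neg (by omega),
      if_neg (by omega), if_neg (by omega), if_neg (by omega), if_neg (by omega),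
      if_neg (by omega)]
  have ha1 : m₁.a = m.a := by rw [hm₁]; rfl
  refine (Tr.seq (T₁ := 5 + n * 77) (T₂ := 25 + S)
    ((labs_tr N hωb hh m₁ hGR).mono ?_)).le (by omega)
  rintro m₂ ⟨hv2, ha2, hl5⟩
  refine seqA (x := 0) (T := 23 + S) (V.lit (by omega)) ?_ (by simp only [Expr.cost]; omega)
  have hE2 : Env X k μp (m₂.setV 23 0) := by
    refine Env.setV ⟨hR.of_eq ?_, ?_, ?_, ?_⟩ (by omega) 0
    · intro y hy _
      rw [hv2 y (by omega), hv1 y (by omega)]
    · rw [ha2 0 (by omega), ha1]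
      exact hE0
    · rw [ha2 1 (by omega), ha1]
      exact hE1
    · refine ⟨?_, ?_⟩
      · intro x
        rw [ha2 10 (by omega), ha1]
        exact hEp.1 x
      · intro r i j
        rw [ha2 (11 + r) (by omega), ha1]
        exact hEp.2 r i j
  have h82 : m₂.v 8 = h := by rw [hv2 8 (by omega), hv1 8 (by omega)]; exact h8
  have h242 : m₂.v 24 = m.v 24 := by rw [hv2 24 (by omega), hv1 24 (by omega)]
  refine (Tr.seq (T₁ := 5 + S) (T₂ := 18) ?_).le (by omega)
  rw [hS]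
  refine (copies_tr N X G hμ hμW hh hω hrun (m₂.setV 23 0) hE2 hl5 h82 ?_ rfl).mono ?_
  · intro idx h1 h2
    obtain ⟨z1, z2⟩ := hz idx h1 h2
    refine ⟨?_, ?_⟩
    · intro x
      show m₂.a 10 x idx = _
      rw [ha2 10 (by omega), ha1]
      exact z1 x
    · intro r i j
      show m₂.a (11 + r) i (j * (nL k n + 1) + idx) = _
      rw [ha2 (11 + r) (by omega), ha1]
      exact z2 r i j
  rintro m₃ ⟨hE3, h83, h243, hz3, h233⟩
  have hcl := cnt_le n μ h (cK n)
  have h243' : m₃.v 24 = m.v 24 := h243.trans h242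
  refine iteLt (T := 3) (V.reg (n := cK n) hE3.1.2.2.2.2.1 (by omega))
    (V.mul (V.lit (by omega)) (V.reg (n := cnt n μ h (cK n)) h233 (by omega))
      (by
        have := N.K1
        have h100 := N.G100
        have hK2 : 2 * cK n < W' := by
          have h1 := N.nLW
          have h2 : (n + 1) * (nL k n + 2) = n * (nL k n + 2) + (nL k n + 2) := by ring
          have h3 : 1 * (nL k n + 2) ≤ n * (nL k n + 2) := Nat.mul_le_mul_right _ N.n1
          omega
        omega)) ?_ ?_ (by decide)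
  · intro hlt
    refine trA (x := 1) (V.lit (by omega)) ⟨hE3.setV (by omega) 1, ?_, ?_, hz3⟩ (by decide)
    · rw [setV_v, if_neg (by omega)]
      exact h83
    · rw [if_pos hlt]
      simp
  · intro hlt
    refine (Tr.skip ⟨hE3, h83, ?_, hz3⟩).le (by omega)
    rw [if_neg hlt]
    exact h243'

end Grp

end Pool.Agent.W2helper86.ET
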