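import Pool.Agent.W2helper86.ET.Red3

set_option autoImplicit false

/-!
# Project ETU, piece RED
-/

namespace Pool.Agent.W2helper86.ET

open Pool.Agent.W2helper22.SM Pool.Agent.W2helper22.ET Pool.Agent.W2helper86.SM

/-- PIECE RED -/
theorem red_ok : P_RED := by
  classical
  intro P g p q n k W' ω' ω X G μ t hk hbig hωb hω hωg hrung hμ hrun
  have N := num hk hbig
  have hn1 := N.n1
  have hnW := N.nW
  have hnW4 := N.nW4
  have hLW := N.LW
  have hGL := N.hG
  have hKL := N.KL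
  have hUW := N.UW
  have hkn := N.k3
  have hG100 := N.G100
  have hpW := N.pW
  have hqW := N.qW
  have hplW := N.plW
  have hW2 := N.W2
  have hW2g := N.W2g
  have hlog : Nat.log 2 n ≤ n := Nat.log_le_self 2 n
  have hbits : bits n = Nat.log 2 n + 1 := rfl
  have h5 : n * n * n + 1 ≤ (n * n * n + 1) * (n + 1) := Nat.le_mul_of_pos_right _ (by omega)
  have hkW : k < W' := by
    have : k < 2 ^ k := Nat.lt_two_pow_self
    omega
  obtain ⟨μp, hμp⟩ : ∃ μp, μp = μ (nL k n) := ⟨_, rfl⟩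
  rw [← hμp] at hrung hμ
  have hμW : ∀ i j, μp.a 2 i j < W' := by
    intro i j
    have h1 : 0 < g.W n := Nat.two_pow_pos _
    have := hrung.entries_lt (fun _ _ _ => h1) 2 i j
    omega
  obtain ⟨tp, htp⟩ : ∃ tp, tp = t (nL k n) := ⟨_, rfl⟩
  rw [← htp] at hrung
  obtain ⟨S, hS⟩ : ∃ S, S = ∑ h ∈ Finset.range (nG k n), (107 + n * 77 +
    ∑ j ∈ Finset.range (cK n), (32 + n * (12 + n * 70) + 10 * t (h * cK n + j))) := ⟨_, rfl⟩
  have hSe : S = nG k n * (107 + n * 77) + nL k n * (32 + n * (12 + n * 70)) +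
      10 * ∑ idx ∈ Finset.range (nL k n), t idx := by
    rw [hS]
    exact cost_sum (nG k n) (cK n) (nL k n) (107 + n * 77) (32 + n * (12 + n * 70)) rfl t
  unfold redP
  refine (Tr.seq (T₁ := 100 * (n + 1)) (T₂ := 100 + 10 * tp + S)
    ((logP_ok W' n ω' X.enc hn1 (by omega) rfl).mono ?_)).le ?_
  swap
  · rw [hSe, Finset.sum_range_succ, ← htp]
    have e1 : nL k n * (32 + n * (12 + n * 70))
        = 32 * nL k n + 12 * (nL k n * n) + 70 * (nL k n * n * n) := by ring
    have e2 : 2000 * (nL k n + 1) * (n + 1) ^ 2 = 2000 * (nL k n * n * n)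
        + 4000 * (nL k n * n) + 2000 * nL k n + 2000 * (n * n) + 4000 * n + 2000 := by ring
    have e3 : nG k n * (107 + n * 77) ≤ nL k n * (107 + n * 77) := Nat.mul_le_mul_right _ hGL
    have e4 : nL k n * (107 + n * 77) = 107 * nL k n + 77 * (nL k n * n) := by ring
    rw [e1, e2]
    rw [e4] at e3
    generalize nG k n * (107 + n * 77) = z0 at e3 ⊢
    generalize nL k n * n * n = z1 at e3 ⊢
    generalize nL k n * n = z2 at e3 ⊢
    generalize n * n = z3 at e3 ⊢
    generalize ∑ idx ∈ Finset.range (nL k n), t idx = z4 at e3 ⊢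
    omega
  rintro m₁ rfl
  have hpk : p * Nat.log 2 n / q = k := N.kk.symm
  refine seqA (x := k) (T := 94 + 10 * tp + S)
    ((V.div (V.mul (V.lit hpW) (V.reg (n := Nat.log 2 n) rfl (by omega)) hplW)
      (V.lit hqW)).cast hpk) ?_
    (by simp only [Expr.cost]; omega)
  refine seqA (x := cK n) (T := 86 + 10 * tp + S)
    (V.add (V.mul (V.lit (by omega)) (V.add (V.reg (n := Nat.log 2 n) rfl (by omega))
      (V.lit (by omega)) (by omega)) (by omega)) (V.lit (by omega)) (by omega)) ?_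
    (by simp only [Expr.cost]; omega)
  refine seqA (x := nU k n) (T := 72 + 10 * tp + S)
    ((V.mul (V.lit (by omega)) (V.add (V.div (V.mul (V.mul (V.reg (n := n) rfl (by omega))
      (V.reg (n := n) rfl (by omega)) ?_) (V.reg (n := n) rfl (by omega)) (by omega))
      (V.shl (V.reg (n := k) rfl hkW) (by omega) (by omega))) (V.lit (by omega)) ?_) ?_).cast ?_) ?_
    (by simp only [Expr.cost]; omega)
  · have : n * n * 1 ≤ n * n * n := Nat.mul_le_mul_left _ hn1
    omega
  · have := Nat.div_le_self (n * n * n) (2 ^ k)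
    omega
  · have := Nat.div_le_self (n * n * n) (2 ^ k)
    omega
  · unfold nU
    rw [show n ^ 3 = n * n * n by ring]
  have hbb : (Nat.log 2 n + 1) * (Nat.log 2 n + 1) * nU k n * 4 = nG k n := by
    unfold nG bits
    ring
  have hbn4 : (Nat.log 2 n + 1) * (Nat.log 2 n + 1) * nU k n ≤ nG k n := by
    rw [← hbb]
    exact Nat.le_mul_of_pos_right _ (by norm_num)
  have hbn3 : (Nat.log 2 n + 1) * (Nat.log 2 n + 1) ≤ nG k n := by
    refine le_trans ?_ hbn4
    exact Nat.le_mul_of_pos_right _ N.U1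
  refine seqA (x := nG k n) (T := 60 + 10 * tp + S)
    ((V.mul (V.mul (V.mul (V.add (V.reg (n := Nat.log 2 n) rfl (by omega)) (V.lit (by omega))
      (by omega)) (V.add (V.reg (n := Nat.log 2 n) rfl (by omega)) (V.lit (by omega))
      (by omega)) (by omega)) (V.reg (n := nU k n) rfl hUW) (by omega)) (V.lit (by omega))
      (by omega)).cast hbb) ?_
    (by simp only [Expr.cost]; omega)
  refine seqA (x := nL k n) (T := 56 + 10 * tp + S)
    ((V.mul (V.reg (n := nG k n) rfl (by omega)) (V.reg (n := cK n) rfl (by omega))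
      (show nL k n < W' by omega))) ?_
    (by simp only [Expr.cost]; omega)
  refine seqA (x := nL k n + 1) (T := 52 + 10 * tp + S)
    (V.add (V.reg (n := nL k n) rfl (by omega)) (V.lit (by omega)) (by omega)) ?_
    (by simp only [Expr.cost]; omega)
  refine seqS (a := 0) (b := nL k n) (x := n) (T := 48 + 10 * tp + S) (V.lit (by omega))
    (V.reg rfl (by omega)) (V.reg rfl (by omega)) ?_ (by simp only [Expr.cost]; omega)
  obtain ⟨m₂, hm₂⟩ : ∃ m₂, m₂ = (((((((X.enc.setV 3 (Nat.log 2 n)).setV 4 k).setV 5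
    (cK n)).setV 6 (nU k n)).setV 7 (nG k n)).setV 1 (nL k n)).setV 2 (nL k n + 1)) := ⟨_, rfl⟩
  rw [← hm₂]
  have hR2 : RGE n k m₂ := by
    rw [hm₂]
    exact ⟨rfl, rfl, rfl, rfl, rfl, rfl, rfl⟩
  have h12 : m₂.v 1 = nL k n := by rw [hm₂]; rfl
  have ha2 : m₂.a = X.enc.a := by rw [hm₂]; rfl
  have hz2 : ∀ idx, Inst (nL k n + 1) idx m₂ ⟨fun _ => 0, fun _ _ _ => 0⟩ := by
    intro idx
    refine ⟨?_, ?_⟩
    · intro x
      rw [ha2]
      exact enc_ge2 X _ _ _ (by omega)
    · intro r i j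
      rw [ha2]
      exact enc_ge2 X _ _ _ (by omega)
  obtain ⟨hI1, hF1⟩ := assign_inst (hz2 (nL k n)) 0 n
  have hst : (Mem.setV ⟨fun _ => 0, fun _ _ _ => 0⟩ 0 n) = start n := rfl
  rw [hst] at hI1
  have hsim := sim' (g.W n) W' (nL k n + 1) (nL k n) (ω (nL k n)) ω' g.prog
    (m₂.setA 10 0 (nL k n) n) _ _ tp (by omega) (by omega) (by omega) N.W2g N.WLg N.mxg hωg h12
    hR2.2.1 hI1 hrung
  refine (Tr.seq (T₁ := 10 * tp) (T₂ := 48 + S) (hsim.mono ?_)).le (by omega)
  rintro m₃ ⟨hI3, hF3⟩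
  have hcf : CF (nL k n + 1) (nL k n) m₂ m₃ := (CF.of_sim hF1).trans (CF.of_sim hF3)
  have hv3 : m₃.v = m₂.v := by rw [hF3.1]; rfl
  have hE3 : Env X k μp m₃ := by
    refine ⟨hR2.of_eq (fun y _ _ => by rw [hv3]), ?_, ?_, hI3⟩
    · rw [hcf.1 0 (by omega), ha2]
    · rw [hcf.1 1 (by omega), ha2]
  refine seqA (x := 0) (T := 46 + S) (V.lit (by omega)) ?_ (by simp only [Expr.cost]; omega)
  refine (Tr.seq (T₁ := 5 + S) (T₂ := 2) ?_).le (by omega)
  refine (Tr.forR (x := 8) (e := .reg 7)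
    (I := fun h m => Env X k μp m ∧
      m.v 24 = (if ∃ h' < h, cK n < 2 * cnt n μ h' (cK n) then 1 else 0) ∧
      ∀ idx < nL k n, h * cK n ≤ idx →
          Inst (nL k n + 1) idx m ⟨fun _ => 0, fun _ _ _ => 0⟩)
    (T := fun h => 100 + n * 77 + ∑ j ∈ Finset.range (cK n),
      (32 + n * (12 + n * 70) + 10 * t (h * cK n + j))) (nG k n) (by omega) ?_ ?_ ?_ ?_).le ?_
  · refine ⟨(hE3.setV (by omega) 0).setV (by omega) 0, ?_, ?_⟩
    · rw [if_neg]
      · rfl
      · rintro ⟨h', h1, -⟩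
        omega
    · intro idx h1 _
      exact hcf.inst (idx' := idx) (by omega) (by omega) (hz2 idx)
  · rintro h hh m ⟨hE, -, -⟩ _
    have : m.v 7 = nG k n := hE.1.2.2.2.2.2.2
    exact ⟨show m.v 7 < W' by omega, this⟩
  · rintro h hh m ⟨hE, h24, hz⟩ h8
    refine (group_tr N X G hμ hμW hωb hh hω (hrun h hh) m hE h8 hz).mono ?_
    rintro m' ⟨hE', h8', h24', hz'⟩
    refine ⟨h8', hE'.setV (by omega) _, ?_, hz'⟩
    rw [setV_v, if_neg (by omega), h24', h24]
    by_cases hc : cK n < 2 * cnt n μ h (cK n)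
    · rw [if_pos hc, if_pos ⟨h, by omega, hc⟩]
    · rw [if_neg hc]
      by_cases hex : ∃ h' < h, cK n < 2 * cnt n μ h' (cK n)
      · rw [if_pos hex, if_pos]
        obtain ⟨h', h1, h2⟩ := hex
        exact ⟨h', by omega, h2⟩
      · rw [if_neg hex, if_neg]
        rintro ⟨h', h1, h2⟩
        by_cases he : h' = h
        · rw [he] at h2
          exact hc h2
        · exact hex ⟨h', by omega, h2⟩
  · rintro m' ⟨hE', h24, -⟩ _
    have h24W : m'.v 24 < W' := by
      rw [h24]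
      split_ifs <;> omega
    refine trA (x := m'.v 24) (V.reg rfl h24W) ?_ (by decide)
    rw [setV_same, h24]
    show _ ↔ ∃ h < nG k n, cK n < 2 * cnt n μ h (cK n)
    split_ifs with hc
    · exact ⟨fun _ => hc, fun _ => by omega⟩
    · exact ⟨fun h => absurd rfl h, fun h => absurd h hc⟩
  · have : ∀ h, (Expr.reg 7).cost + 6 + (100 + n * 77 + ∑ j ∈ Finset.range (cK n),
        (32 + n * (12 + n * 70) + 10 * t (h * cK n + j)))
        = 107 + n * 77 + ∑ j ∈ Finset.range (cK n),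
        (32 + n * (12 + n * 70) + 10 * t (h * cK n + j)) := by
      intro h
      simp only [Expr.cost]
      omega
    simp only [this]
    rw [← hS]
    simp only [Expr.cost]
    omega

end Pool.Agent.W2helper86.ET
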