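import Pool.Agent.W2helper22.ET.Stm
import Pool.Agent.W2helper86.SM.Pre3
import Pool.Agent.W2helper22.SM.Log
import Pool.Agent.W2helper22.SM.Exec

set_option autoImplicit false

/-!
# Project ETU, piece RED: values of expressions
-/

namespace Pool.Agent.W2helper86.ET

open Pool.Agent.W2helper22.SM Pool.Agent.W2helper22.ET Pool.Agent.W2helper86.SM

/-- the expression has the value `x`, and all numbers which occur are words -/
def V (W : ℕ) (ω : ℕ → ℕ → ℕ) (m : Mem) (e : Expr) (x : ℕ) : Prop := e.ok W ω m ∧ e.eval ω m = x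

variable {W : ℕ} {ω : ℕ → ℕ → ℕ} {m : Mem}

theorem V.lt {e : Expr} {x : ℕ} (h : V W ω m e x) : x < W := by
  rw [← h.2]
  exact eval_lt e h.1

theorem V.lit {n : ℕ} (h : n < W) : V W ω m (.lit n) n := ⟨h, rfl⟩

theorem V.reg {x n : ℕ} (hx : m.v x = n) (h : n < W) : V W ω m (.reg x) n :=
  ⟨by rw [← hx] at h; exact h, hx⟩

theorem V.add {e f : Expr} {a b : ℕ} (he : V W ω m e a) (hf : V W ω m f b) (h : a + b < W) :
    V W ω m (eAdd e f) (a + b) := by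
  obtain ⟨h1, rfl⟩ := he
  obtain ⟨h2, rfl⟩ := hf
  exact ⟨⟨h1, h2, h⟩, rfl⟩

theorem V.sub {e f : Expr} {a b : ℕ} (he : V W ω m e a) (hf : V W ω m f b) :
    V W ω m (eSub e f) (a - b) := by
  have h3 := he.lt
  obtain ⟨h1, rfl⟩ := he
  obtain ⟨h2, rfl⟩ := hf
  exact ⟨⟨h1, h2, lt_of_le_of_lt (Nat.sub_le _ _) h3⟩, rfl⟩

theorem V.mul {e f : Expr} {a b : ℕ} (he : V W ω m e a) (hf : V W ω m f b) (h : a * b < W) :
    V W ω m (eMul e f) (a * b) := by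
  obtain ⟨h1, rfl⟩ := he
  obtain ⟨h2, rfl⟩ := hf
  exact ⟨⟨h1, h2, h⟩, rfl⟩

theorem V.div {e f : Expr} {a b : ℕ} (he : V W ω m e a) (hf : V W ω m f b) :
    V W ω m (eDiv e f) (a / b) := by
  have h3 := he.lt
  obtain ⟨h1, rfl⟩ := he
  obtain ⟨h2, rfl⟩ := hf
  exact ⟨⟨h1, h2, lt_of_le_of_lt (Nat.div_le_self _ _) h3⟩, rfl⟩

theorem V.mod {e f : Expr} {a b : ℕ} (he : V W ω m e a) (hf : V W ω m f b) :
    V W ω m (eMod e f) (a % b) := by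
  have h3 := he.lt
  obtain ⟨h1, rfl⟩ := he
  obtain ⟨h2, rfl⟩ := hf
  exact ⟨⟨h1, h2, lt_of_le_of_lt (Nat.mod_le _ _) h3⟩, rfl⟩

/-- `1 <<< b` -/
theorem V.shl {f : Expr} {b : ℕ} (hf : V W ω m f b) (h1 : 1 < W) (h : 2 ^ b < W) :
    V W ω m (eShl (.lit 1) f) (2 ^ b) := by
  obtain ⟨h2, rfl⟩ := hf
  have e : (eShl (.lit 1) f).eval ω m = 2 ^ f.eval ω m := Nat.one_shiftLeft _
  refine ⟨⟨h1, h2, ?_⟩, e⟩
  show (eShl (.lit 1) f).eval ω m < W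
  rw [e]
  exact h

theorem V.get {r : ℕ} {i j : Expr} {a b x : ℕ} (hi : V W ω m i a) (hj : V W ω m j b)
    (hx : m.a r a b = x) (h : x < W) : V W ω m (.get r i j) x := by
  obtain ⟨h1, rfl⟩ := hi
  obtain ⟨h2, rfl⟩ := hj
  subst hx
  exact ⟨⟨h1, h2, h⟩, rfl⟩

theorem V.rnd {i j : Expr} {a b x : ℕ} (hi : V W ω m i a) (hj : V W ω m j b)
    (hx : ω a b = x) (h : x < W) : V W ω m (.rnd i j) x := by
  obtain ⟨h1, rfl⟩ := hi
  obtain ⟨h2, rfl⟩ := hj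
  subst hx
  exact ⟨⟨h1, h2, h⟩, rfl⟩

theorem V.cast {e : Expr} {x y : ℕ} (h : V W ω m e x) (hxy : x = y) : V W ω m e y := hxy ▸ h

theorem trA {y : ℕ} {e : Expr} {x T : ℕ} {Q : Mem → Prop} (he : V W ω m e x)
    (hQ : Q (m.setV y x)) (hT : e.cost + 1 ≤ T) : Tr W ω (.assign y e) m T Q := by
  obtain ⟨h1, rfl⟩ := he
  exact (Tr.assign h1 hQ).le hT

theorem trS {r : ℕ} {i j e : Expr} {a b x T : ℕ} {Q : Mem → Prop} (hi : V W ω m i a)
    (hj : V W ω m j b) (he : V W ω m e x) (hQ : Q (m.setA r a b x))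
    (hT : i.cost + j.cost + e.cost + 1 ≤ T) : Tr W ω (.store r i j e) m T Q := by
  obtain ⟨h1, rfl⟩ := hi
  obtain ⟨h2, rfl⟩ := hj
  obtain ⟨h3, rfl⟩ := he
  exact (Tr.store h1 h2 h3 hQ).le hT

/-- first `y := e`, then the rest -/
theorem seqA {y : ℕ} {e : Expr} {x T T' : ℕ} {q : Prog} {Q : Mem → Prop} (he : V W ω m e x)
    (hQ : Tr W ω q (m.setV y x) T Q) (hT : e.cost + 1 + T ≤ T') :
    Tr W ω (.seq (.assign y e) q) m T' Q :=
  (Tr.seq (trA (Q := fun m' => Tr W ω q m' T Q) he hQ le_rfl)).le hT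

theorem seqS {r : ℕ} {i j e : Expr} {a b x T T' : ℕ} {q : Prog} {Q : Mem → Prop}
    (hi : V W ω m i a) (hj : V W ω m j b) (he : V W ω m e x)
    (hQ : Tr W ω q (m.setA r a b x) T Q) (hT : i.cost + j.cost + e.cost + 1 + T ≤ T') :
    Tr W ω (.seq (.store r i j e) q) m T' Q :=
  (Tr.seq (trS (Q := fun m' => Tr W ω q m' T Q) hi hj he hQ le_rfl)).le hT

theorem iteEq {e f : Expr} {a b T T' : ℕ} {p q : Prog} {Q : Mem → Prop} (he : V W ω m e a)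
    (hf : V W ω m f b) (h1 : a = b → Tr W ω p m T Q) (h2 : a ≠ b → Tr W ω q m T Q)
    (hT : e.cost + f.cost + 1 + T ≤ T') : Tr W ω (.ite (.eq e f) p q) m T' Q := by
  obtain ⟨o1, rfl⟩ := he
  obtain ⟨o2, rfl⟩ := hf
  exact (Tr.ite (t := .eq e f) ⟨o1, o2⟩ h1 h2).le hT

theorem iteLt {e f : Expr} {a b T T' : ℕ} {p q : Prog} {Q : Mem → Prop} (he : V W ω m e a)
    (hf : V W ω m f b) (h1 : a < b → Tr W ω p m T Q) (h2 : ¬ a < b → Tr W ω q m T Q)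
    (hT : e.cost + f.cost + 1 + T ≤ T') : Tr W ω (.ite (.lt e f) p q) m T' Q := by
  obtain ⟨o1, rfl⟩ := he
  obtain ⟨o2, rfl⟩ := hf
  exact (Tr.ite (t := .lt e f) ⟨o1, o2⟩ h1 h2).le hT

/-- The registers remain small. -/
theorem regs_lt {B : ℕ} {p : Prog} {m m' : Mem} {c : ℕ} (h : Runs W ω p m m' c) (hB : W ≤ B)
    {x : ℕ} (hm : m.v x < B) : m'.v x < B := by
  induction h with
  | skip m => exact hm
  | assign y e m he =>
    rw [setV_v]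
    split_ifs
    · exact lt_of_lt_of_le (eval_lt e he) hB
    · exact hm
  | store r i j e m _ _ he => exact hm
  | seq _ _ ih1 ih2 => exact ih2 (ih1 hm)
  | ite_true _ _ _ ih => exact ih hm
  | ite_false _ _ _ ih => exact ih hm
  | loop_done _ _ => exact hm
  | loop_step _ _ _ _ ih1 ih2 => exact ih2 (ih1 hm)

/-- writing to the arrays of the copy `idx`; its present state is `ν` -/
def WJ (L idx : ℕ) (m₀ m ν : Mem) : Prop :=
  (∀ y, y ≠ 12 → y ≠ 13 → m.v y = m₀.v y) ∧ CF L idx m₀ m ∧ Inst L idx m ν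

theorem WJ.setV {L idx : ℕ} {m₀ m ν : Mem} (h : WJ L idx m₀ m ν) {x : ℕ}
    (hx : x = 12 ∨ x = 13) (n : ℕ) : WJ L idx m₀ (m.setV x n) ν := by
  refine ⟨?_, h.2.1, h.2.2⟩
  intro y h1 h2
  rw [setV_v, if_neg (by omega)]
  exact h.1 y h1 h2

theorem WJ.store {L idx : ℕ} {m₀ m ν : Mem} (h : WJ L idx m₀ m ν) (hidx : idx < L)
    (r i c w : ℕ) :
    WJ L idx m₀ (m.setA (11 + r) i (c * L + idx) w) (ν.setA r i c w) := by
  obtain ⟨hI, hF⟩ := store_inst hidx h.2.2 r i c w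
  exact ⟨h.1, h.2.1.trans (CF.of_sim hF), hI⟩

theorem WJ.congr {L idx : ℕ} {m₀ m ν ν' : Mem} (h : WJ L idx m₀ m ν) (hD : ν = ν') :
    WJ L idx m₀ m ν' := hD ▸ h

end Pool.Agent.W2helper86.ET
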